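import Pool.Agent.Q275.RT.MainA
import Pool.Agent.Q184.RT.ISO
import Pool.Agent.Q265.RT.PM
import Pool.Agent.Q144.RT_CMP
import Pool.Agent.Q119.RT.Eng
import Pool.Agent.Q119.RT.Den
import Pool.Agent.Q153.RT.RICH
import Pool.Agent.Q153.RT.SGF
import Pool.Agent.Q153.RT.BAS
import Pool.Agent.Q58.RT.BND

/-! Project RT: all jobs together. -/

set_option autoImplicit false

namespace Pool.Agent.Q275.RT

theorem t_BND : S_BND :=
  Pool.Agent.Q58.RT.bnd (Pool.Agent.Q153.RT.bas (Pool.Agent.Q119.RT.den (Pool.Agent.Q119.RT.eng Pool.Agent.Q153.RT.sgf)))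
    Pool.Agent.Q153.RT.rich

theorem t_MAIN : S_MAIN :=
  main Pool.Agent.Q184.RT.iso (Pool.Agent.Q265.RT.pm Pool.Agent.Q184.RT.iso) Pool.Agent.Q144.RT.cmp t_BND

end Pool.Agent.Q275.RT
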