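import Pool.Agent.Q275.RT.Stm

/-! Project RT: the final assembly. -/

set_option autoImplicit false

namespace Pool.Agent.Q275.RT

open Finset

/-- A finite set of primes is determined by its product. -/
theorem sub_of_prod {U V : Finset ℕ} (hU : ∀ p ∈ U, p.Prime) (hV : ∀ p ∈ V, p.Prime)
    (h : ∏ p ∈ U, p = ∏ p ∈ V, p) : U ⊆ V := by
  intro p hp
  have h1 : p ∣ ∏ q ∈ V, q := by
    rw [← h]
    exact dvd_prod_of_mem _ hp
  obtain ⟨q, hq, hpq⟩ := (Prime.dvd_finset_prod_iff (hU p hp).prime _).1 h1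
  rw [(Nat.prime_dvd_prime_iff_eq (hU p hp) (hV q hq)).1 hpq]
  exact hq

theorem eq_of_prod {U V : Finset ℕ} (hU : ∀ p ∈ U, p.Prime) (hV : ∀ p ∈ V, p.Prime)
    (h : ∏ p ∈ U, p = ∏ p ∈ V, p) : U = V :=
  Subset.antisymm (sub_of_prod hU hV h) (sub_of_prod hV hU h.symm)

theorem le_of_sum {U : Finset ℕ} {p : ℕ} (hp : p ∈ U) : p ≤ ∑ q ∈ U, q :=
  single_le_sum (f := fun q => q) (fun _ _ => Nat.zero_le _) hp

theorem card_le_sum {U : Finset ℕ} (hU : ∀ p ∈ U, p.Prime) : U.card ≤ ∑ q ∈ U, q := by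
  rw [card_eq_sum_ones]
  exact sum_le_sum fun p hp => (hU p hp).one_lt.le

theorem prod_pos' {U : Finset ℕ} (hU : ∀ p ∈ U, p.Prime) : 0 < ∏ q ∈ U, q :=
  prod_pos fun p hp => (hU p hp).pos

/-- the key comparison -/
theorem key (hCMP : S_CMP) {m x G : ℕ} {F T U : Finset ℕ} (hF : ∀ p, p ∈ F ↔ p.Prime ∧ p ≤ x)
    (hTF : T ⊆ F) (hT : ∀ V : Finset ℕ, (∀ p ∈ V, p.Prime) → ∑ p ∈ V, p = ∑ p ∈ T, p → V.card < m →
      ∏ p ∈ T, p < ∏ p ∈ V, p) (hm : 0 < m) (hG : m * Real.exp m * ∏ p ∈ T, (p : ℝ) < G)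
    (hx : ∀ d : ℕ, 0 < d → d ≤ G → ¬ (x + d).Prime) (hU : ∀ p ∈ U, p.Prime)
    (hs : ∑ p ∈ U, p + ∑ p ∈ T, p = ∑ p ∈ F, p) (hc : F.card < U.card + m) :
    ∏ p ∈ U, p < ∏ p ∈ F \ T, p := by
  have hFp : ∀ p ∈ F, p.Prime := fun p hp => ((hF p).1 hp).1
  have hTp : ∀ p ∈ T, p.Prime := fun p hp => hFp p (hTF hp)
  have s1 : ∑ p ∈ F \ U, p + ∑ p ∈ F ∩ U, p = ∑ p ∈ F, p := by
    rw [← sdiff_inter_self_left F U]
    exact sum_sdiff inter_subset_left
  have s2 : ∑ p ∈ U \ F, p + ∑ p ∈ F ∩ U, p = ∑ p ∈ U, p := by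
    rw [inter_comm, ← sdiff_inter_self_left U F]
    exact sum_sdiff inter_subset_left
  have p1 : (∏ p ∈ F \ U, p) * ∏ p ∈ F ∩ U, p = ∏ p ∈ F, p := by
    rw [← sdiff_inter_self_left F U]
    exact prod_sdiff inter_subset_left
  have p2 : (∏ p ∈ U \ F, p) * ∏ p ∈ F ∩ U, p = ∏ p ∈ U, p := by
    rw [inter_comm, ← sdiff_inter_self_left U F]
    exact prod_sdiff inter_subset_left
  have c1 : (F \ U).card + (F ∩ U).card = F.card := by
    rw [← sdiff_inter_self_left F U]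
    exact card_sdiff_add_card_eq_card inter_subset_left
  have c2 : (U \ F).card + (F ∩ U).card = U.card := by
    rw [inter_comm, ← sdiff_inter_self_left U F]
    exact card_sdiff_add_card_eq_card inter_subset_left
  have p3 : (∏ p ∈ F \ T, p) * ∏ p ∈ T, p = ∏ p ∈ F, p := prod_sdiff hTF
  have hRp : ∀ p ∈ F \ U, p.Prime := fun p hp => hFp p (mem_sdiff.1 hp).1
  have hAp : ∀ p ∈ U \ F, p.Prime := fun p hp => hU p (mem_sdiff.1 hp).1
  have hsum : ∑ p ∈ F \ U, p = ∑ p ∈ U \ F, p + ∑ p ∈ T, p := by omega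
  have hcard : (F \ U).card < (U \ F).card + m := by omega
  have hmain : (∏ p ∈ T, p) * ∏ p ∈ U \ F, p < ∏ p ∈ F \ U, p := by
    rcases (U \ F).eq_empty_or_nonempty with hA | hA
    · rw [hA] at hsum hcard ⊢
      simp only [sum_empty, card_empty, prod_empty, zero_add, mul_one] at hsum hcard ⊢
      exact hT _ hRp hsum hcard
    · have hTpos : (0 : ℝ) < ∏ p ∈ T, (p : ℝ) := prod_pos fun p hp => by exact_mod_cast (hTp p hp).pos
      have hme : (0 : ℝ) < m * Real.exp m := mul_pos (by exact_mod_cast hm) (Real.exp_pos _)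
      have hG0 : 0 < G := by
        have : (0 : ℝ) < G := (mul_pos hme hTpos).trans hG
        exact_mod_cast this
      have h := hCMP m x G (F \ U) (U \ F) hG0 hA
        (fun r hr => ⟨(hRp r hr).one_lt.le, ((hF r).1 (mem_sdiff.1 hr).1).2⟩)
        (fun a ha => by
          have ha1 := hAp a ha
          have ha2 := (mem_sdiff.1 ha).2
          by_contra hlt
          have hxa : x < a := by
            by_contra hle
            exact ha2 ((hF a).2 ⟨ha1, not_lt.1 hle⟩)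
          have := hx (a - x) (by omega) (by omega)
          rw [show x + (a - x) = a by omega] at this
          exact this ha1)
        (by omega) hcard.le
      have hApos : (0 : ℝ) < ∏ p ∈ U \ F, (p : ℝ) := prod_pos fun p hp => by exact_mod_cast (hAp p hp).pos
      have h1 : m * Real.exp m * ((∏ p ∈ T, (p : ℝ)) * ∏ p ∈ U \ F, (p : ℝ)) <
          m * Real.exp m * ∏ p ∈ F \ U, (p : ℝ) := by
        calc _ = m * Real.exp m * (∏ p ∈ T, (p : ℝ)) * ∏ p ∈ U \ F, (p : ℝ) := by ring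
          _ < G * ∏ p ∈ U \ F, (p : ℝ) := mul_lt_mul_of_pos_right hG hApos
          _ ≤ _ := h
      have h2 := lt_of_mul_lt_mul_left h1 hme.le
      have h3 : (((∏ p ∈ T, p) * ∏ p ∈ U \ F, p : ℕ) : ℝ) < ((∏ p ∈ F \ U, p : ℕ) : ℝ) := by
        push_cast
        exact h2
      exact_mod_cast h3
  have hI : 0 < ∏ p ∈ F ∩ U, p := prod_pos' fun p hp => hFp p (mem_inter.1 hp).1
  have hTpos : 0 < ∏ p ∈ T, p := prod_pos' hTp
  refine lt_of_mul_lt_mul_right ?_ hTpos.le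
  rw [p3, ← p1, ← p2]
  calc (∏ p ∈ U \ F, p) * (∏ p ∈ F ∩ U, p) * ∏ p ∈ T, p
      = ((∏ p ∈ T, p) * ∏ p ∈ U \ F, p) * ∏ p ∈ F ∩ U, p := by ring
    _ < _ := Nat.mul_lt_mul_of_pos_right hmain hI

theorem main (hISO : S_ISO) (hPM : S_PM) (hCMP : S_CMP) (hBND : S_BND) : S_MAIN := by
  classical
  intro C
  obtain ⟨c₀, hB⟩ := hBND
  obtain ⟨T, hTp, hTc, hT⟩ := hPM (C + c₀ + 7)
  have hj : 7 ≤ ∑ p ∈ T, p := by
    have := card_le_sum hTp
    omega
  obtain ⟨R, hRp, hRs, hRc⟩ := hB _ hj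
  obtain ⟨G, hG⟩ := exists_nat_gt (((C + c₀ + 7 : ℕ) : ℝ) * Real.exp ((C + c₀ + 7 : ℕ) : ℝ) * ∏ p ∈ T, (p : ℝ))
  obtain ⟨x, hxp, hxj, -, hx⟩ := hISO G (∑ p ∈ T, p)
  set F := (range (x + 1)).filter Nat.Prime with hFdef
  have hF : ∀ p, p ∈ F ↔ p.Prime ∧ p ≤ x := by
    intro p
    rw [hFdef, mem_filter, mem_range]
    constructor
    · rintro ⟨h1, h2⟩
      exact ⟨h2, by omega⟩
    · rintro ⟨h1, h2⟩
      exact ⟨by omega, h1⟩
  have hTF : T ⊆ F := fun p hp => (hF p).2 ⟨hTp p hp, (le_of_sum hp).trans hxj.le⟩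
  have hRF : R ⊆ F := fun p hp => (hF p).2 ⟨hRp p hp, ((le_of_sum hp).trans hRs.le).trans hxj.le⟩
  have hFT : ∑ p ∈ F \ T, p + ∑ p ∈ T, p = ∑ p ∈ F, p := sum_sdiff hTF
  have hFR : ∑ p ∈ F \ R, p + ∑ p ∈ R, p = ∑ p ∈ F, p := sum_sdiff hRF
  have hFp : ∀ p ∈ F, p.Prime := fun p hp => ((hF p).1 hp).1
  set n := ∑ p ∈ F \ T, p with hn
  have hP1 : IsPart n (F \ T) := ⟨fun p hp => hFp p (mem_sdiff.1 hp).1, rfl⟩
  have hP2 : IsPart n (F \ R) := ⟨fun p hp => hFp p (mem_sdiff.1 hp).1, by omega⟩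
  let P : Finset (Finset ℕ) := ((range (n + 1)).powerset).filter (fun U => IsPart n U)
  have hP : ∀ U, U ∈ P ↔ IsPart n U := by
    intro U
    rw [mem_filter, mem_powerset]
    refine ⟨fun h => h.2, fun h => ⟨fun p hp => ?_, h⟩⟩
    have := le_of_sum hp
    rw [h.2] at this
    exact mem_range.2 (by omega)
  have hPne : P.Nonempty := ⟨_, (hP _).2 hP1⟩
  obtain ⟨S, hS, hSmax⟩ := exists_max_image P Finset.card hPne
  obtain ⟨V, hV, hVmax⟩ := exists_max_image P (fun U => ∏ p ∈ U, p) hPne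
  have hS' := (hP S).1 hS
  have hV' := (hP V).1 hV
  refine ⟨n, S, V, hS', hV', fun U hU => hSmax U ((hP U).2 hU), fun U hU hne => ?_, ?_⟩
  · refine lt_of_le_of_ne (hVmax U ((hP U).2 hU)) fun h => hne ?_
    exact eq_of_prod hU.1 hV'.1 h
  · have h1 : F.card ≤ S.card + c₀ := by
      have h2 := hSmax _ ((hP _).2 hP2)
      have h3 : (F \ R).card + R.card = F.card := card_sdiff_add_card_eq_card hRF
      omega
    have h4 : V.card + (C + c₀ + 7) ≤ F.card := by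
      by_contra hlt
      have h5 := key hCMP hF hTF hT (by omega) hG (fun d h0 h1 => (hx d h0 h1).1) hV'.1
        (by rw [hV'.2]; exact hFT) (not_le.1 hlt)
      exact absurd (hVmax _ ((hP _).2 hP1)) (not_le.2 h5)
    omega

end Pool.Agent.Q275.RT
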