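import Pool.Agent.H357R2.SI.PairFinal
import Pool.Agent.H312R2.TwoPrimes
import Pool.Agent.W851.Had.Schn

/-!
# Project RT (helper275): MP_60b32f_nt, maximal product versus maximal length partitions into distinct primes

GOAL. For all `C` there is an `n` such that the partition of `n` into distinct primes with the largest
product has at least `C` parts fewer than the longest one.

Proof. (1) PM: for all `m` there is a set `T` of `m` primes such that all sets `U` of fewer than `m` primes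
with the same sum have a larger product (add a large isolated prime to `T`, again and again). (2) Let
`j = ∑ T`, let `x` be a prime followed by a very long gap, `F` the set of the primes `≤ x` and
`n = ∑ F - j`. The partition `F \ T` of `n` has a larger product than all partitions of `n` with
more than `|F| - m` parts (CMP: it does not pay to use primes after the gap). (3) BND: `j` is the sum of
at most `c₀` distinct primes, `c₀` an absolute constant (Schnirelmann's method), so there is a partition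
of `n` with at least `|F| - c₀` parts.
-/

set_option autoImplicit false

namespace Pool.Agent.Q275.RT

open Finset

/-! ## 1. Isolated primes and the sets `T` -/

/-- JOB ISO (about 80 lines; CRT and Dirichlet).
Proof. For the `d ∈ {1, …, W}` choose different primes `l_d`, `l'_d > W` (all `2 W` of them different). By
the Chinese remainder theorem and Dirichlet's theorem (`Nat.forall_exists_prime_gt_and_eq_mod` or similar)
there is a prime `r > N + W + max l` with `r ≡ -d` modulo `l_d` and `r ≡ d` modulo `l'_d` for all `d`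
(these residues are prime to the moduli since `0 < d < l`). Then `l_d ∣ r + d`, `l'_d ∣ r - d`, and both are
larger than these primes, so not prime. -/
def S_ISO : Prop := ∀ W N : ℕ, ∃ r : ℕ, r.Prime ∧ N < r ∧ W < r ∧
  ∀ d : ℕ, 0 < d → d ≤ W → ¬ (r + d).Prime ∧ ¬ (r - d).Prime

/-- The conclusion of PM. JOB PM: prove `theorem pm : S_ISO → S_PM` (about 100 lines).
Proof. Induction on `m`; `m = 0`: `T = ∅`. Let `T'` be as in the claim for `m`, `B = ∏ T' ≥ 1`, and `r` from ISO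
with `W = (m + 1) B` and `N = W + ∑ T'`. Claim: `T = T' ∪ {r}` works for `m + 1` (`r ∉ T'` as `r > ∑ T'`).
Let `U` be a set of primes, `|U| ≤ m`, `∑ U = ∑ T = r + ∑ T' > 0`; so `U ≠ ∅`; let `q = max U`,
`U' = U \ {q}`. Note: for a finite set `V` of integers `≥ 2`, `∑ V ≤ ∏ V` (as `a + b ≤ a b`), so
`∑ T' ≤ B ≤ W`.
Case 1: `∏ U' > m B`. As `r ≤ ∑ U ≤ m q`, `∏ U = q ∏ U' > q m B ≥ r B = ∏ T`.
Case 2: `∏ U' ≤ m B`. Then `∑ U' ≤ ∏ U' ≤ W`. If `∑ U' ≠ ∑ T'` then `q = r + ∑ T' - ∑ U'` is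
`r + d` or `r - d` with `0 < d ≤ W`, not a prime: contradiction. If `∑ U' = ∑ T'` then `q = r` and
`|U'| < m`, so `∏ T' < ∏ U'` and `∏ T = r ∏ T' < q ∏ U' = ∏ U`. -/
def S_PM : Prop := ∀ m : ℕ, ∃ T : Finset ℕ, (∀ p ∈ T, p.Prime) ∧ T.card = m ∧
  ∀ U : Finset ℕ, (∀ p ∈ U, p.Prime) → ∑ p ∈ U, p = ∑ p ∈ T, p → U.card < m →
    ∏ p ∈ T, p < ∏ p ∈ U, p

/-! ## 2. The primes after the gap -/

/-- JOB CMP (an inequality, about 150 lines).
Proof. Let `h = |A| ≥ 1`. `∑ R ≥ ∑ A ≥ h (x + G) > h x` and `∑ R ≤ |R| x`, so `|R| ≥ h + 1`. Let `z` be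
the largest element of `R` with `|{b ∈ R : b ≥ z}| ≥ h + 1` (the smallest element of `R` has this
property); then `|{b ∈ R : b > z}| ≤ h` (otherwise the smallest element of this set has the property), so the
set `B = {b ∈ R : b > z}` has exactly `h` elements. Let `Q = {b ∈ R : b ≤ z}`, `c = |Q| = |R| - h ≤ m`,
`z ∈ Q`, `∑ Q ≤ c z`.
(i) `∑ A ≤ ∑ R = ∑ B + ∑ Q`, so `∑ A - ∑ B ≤ ∑ Q ≤ c z`; and `∑ A - ∑ B ≥ h (x + G) - h x ≥ G`;
hence `c z ≥ G`, `z ≥ G / m`.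
(ii) The function `φ t = log t - t / z` is nonincreasing for `t ≥ z`. So
`∑_{a ∈ A} φ a ≤ h φ x ≤ ∑_{b ∈ B} φ b` (`z ≤ b ≤ x ≤ a`), which means
`log ∏ A - log ∏ B ≤ (∑ A - ∑ B) / z ≤ c ≤ m`. So `∏ A ≤ e^m ∏ B`.
(iii) `∏ R = ∏ B ∏ Q ≥ z ∏ B` (all elements are `≥ 1`). So
`G ∏ A ≤ m z e^m ∏ B ≤ m e^m ∏ R`. -/
def S_CMP : Prop := ∀ (m x G : ℕ) (R A : Finset ℕ), 0 < G → A.Nonempty → (∀ r ∈ R, 1 ≤ r ∧ r ≤ x) →
  (∀ a ∈ A, x + G ≤ a) → ∑ a ∈ A, a ≤ ∑ r ∈ R, r → R.card ≤ A.card + m →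
  (G : ℝ) * ∏ a ∈ A, (a : ℝ) ≤ m * Real.exp m * ∏ r ∈ R, (r : ℝ)

/-! ## 3. Sums of few distinct primes -/

/-- JOB SGF (about 60 lines; see `Pool.Agent.H357R2.SI.sum_sg_sq`; `sg h = ∑_{d ∣ h} 1 / d`).
Proof. By Hölder (or Cauchy-Schwarz twice) `sg h ^ 4 ≤ C ∑_{d ∣ h} d ^ (-1/2)`:
`1 / d = d ^ (-7/8) d ^ (-1/8)`, so
`sg h ≤ (∑ d ^ (-7/6)) ^ (3/4) (∑_{d ∣ h} d ^ (-1/2)) ^ (1/4)`; then sum over `h ≤ T` as in the proof of
`sum_sg_sq` (h5 there). -/
def S_SGF : Prop := ∃ C : ℝ, 1 ≤ C ∧ ∀ T : ℕ,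
  ∑ h ∈ Icc 1 T, Pool.Agent.H357R2.SI.sg h ^ 4 ≤ C * T

/-- the primes in `(X, 4 X]` -/
def PX (X : ℕ) : Finset ℕ := (Ioc X (4 * X)).filter Nat.Prime

/-- the number of the representations of `s` as a sum of two primes in `(X, 4 X]` -/
def rX (X s : ℕ) : ℕ := ((PX X).filter (fun p => s - p ∈ PX X)).card

/-- The conclusion of ENG. JOB ENG: prove `theorem eng : S_SGF → S_ENG` (additive energy, about 150 lines),
using `Pool.Agent.H357R2.SI.pair_sieve`.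
Proof. `∑_s rX X s ^ 2` is the number of the quadruples `(p, q, p', q')` in `PX X` with
`p + q = p' + q'`, i.e. `p - p' = q' - q`. Those with `p = p'` (so `q = q'`): at most `(3 X)²`. Those with
`p - p' = h > 0`: `ρ h ^ 2` with `ρ h = #{n ∈ PX X : n + h ∈ PX X}`, and the same number for
`p' - p = h > 0`. By `pair_sieve` (`a = X`, `u = 3 X`) `ρ h ≤ C sg h ^ 2 (3 X) / log (3 X) ^ 2`, so
`∑_{h = 1}^{3 X} ρ h ^ 2 ≤ 9 C² X² / log (3 X) ^ 4 ∑_{h ≤ 3 X} sg h ^ 4 ≤ C' X³ / log X ^ 4` (`S_SGF`). Finally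
`9 X² ≤ X³ / log X ^ 4` for large `X`. -/
def S_ENG : Prop := ∃ C : ℝ, 1 ≤ C ∧ ∃ X₀ : ℕ, ∀ X : ℕ, X₀ ≤ X →
  (∑ s ∈ range (8 * X + 1), (rX X s : ℝ) ^ 2) * Real.log X ^ 4 ≤ C * (X : ℝ) ^ 3

/-- the number of the primes `p ≤ n` such that `n - p` is a prime -/
def rep (n : ℕ) : ℕ := ((range (n + 1)).filter (fun p => p.Prime ∧ (n - p).Prime)).card

/-- `2 t` has at least `(2 t) ^ (2 / 3)` representations -/
def Good (t : ℕ) : Prop := (2 * t) ^ 2 ≤ rep (2 * t) ^ 3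

/-- The conclusion of DEN. JOB DEN: prove `theorem den : S_ENG → S_DEN` (positive density, about 150 lines),
using `Pool.Agent.H312R2.many_primes`.
Proof. Let `X = x / 4`, large, `N = |PX X| ≥ X / (2 log (4 X)) ≥ X / (4 log X)` (`many_primes`). Let `τ = 1 / 400`
and `H = {s ≤ 8 X : rX X s ≥ τ X / log X ^ 2}`. `∑_{s ≤ 8 X} rX X s = N²` and the `s ∉ H` contribute at most
`(8 X + 1) τ X / log X ^ 2 ≤ N² / 2`. So by Cauchy-Schwarz `(N² / 2)² ≤ |H| ∑_s rX X s ^ 2`, and ENG gives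
`|H| ≥ c X`. For `s ∈ H` (so `rX X s > 0`) `s` is a sum of two odd primes, so `s = 2 t`,
`X < t ≤ 4 X ≤ x`, and `rep (2 t) ≥ rX X (2 t) ≥ τ X / log X ^ 2`, whereas
`(2 t)² ≤ 64 X² ≤ (τ X / log X ^ 2)³` for large `X`. So `t` is good. -/
def S_DEN : Prop := ∃ δ : ℝ, 0 < δ ∧ δ ≤ 1 ∧ ∃ x₀ : ℕ, ∀ x : ℕ, x₀ ≤ x →
  ∃ H : Finset ℕ, (∀ t ∈ H, 1 ≤ t ∧ t ≤ x ∧ Good t) ∧ δ * x ≤ (H.card : ℝ)

/-- The conclusion of BAS. JOB BAS: prove `theorem bas : S_DEN → S_BAS` (about 50 lines), using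
`Pool.Agent.W851.Had.schn`.
Proof. Let `S s` be `s ≤ x₀ ∨ Good s`. Then `δ n ≤ cnt S n` for all `n` (for `n ≤ x₀`
`cnt S n = n`). Apply `schn` with `h = ⌈1 / δ⌉` (for `N₀ = n`): `K = 2 h`, `B = x₀`. -/
def S_BAS : Prop := ∃ K B : ℕ, ∀ n : ℕ, ∃ l : List ℕ, l.length = K ∧ (∀ s ∈ l, s ≤ B ∨ Good s) ∧ l.sum = n

/-- JOB RICH (theorem of Richert; about 60 lines, Bertrand's postulate).
Proof. Claim: for all primes `q ≥ 13`, every `n` with `7 ≤ n ≤ 2 q + 8` is a sum of different primes `≤ q`.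
For `q = 13` (`n ≤ 34`) this is `decide` (subsets of `{2, 3, 5, 7, 11, 13}`). Let `q < q'` be consecutive
primes, `q ≥ 13`; so `q' ≤ 2 q` (Bertrand). Let `2 q + 8 < n ≤ 2 q' + 8`: then `8 ≤ 2 q + 8 - q' < n - q'` and
`n - q' ≤ q' + 8 ≤ 2 q + 8`, so `n - q'` is a sum of different primes `≤ q`. (Induction on `x` in place of `q`: for
all `x ≥ 13`, if `q` is the largest prime `≤ x`, …) -/
def S_RICH : Prop := ∀ n : ℕ, 7 ≤ n → ∃ U : Finset ℕ, (∀ p ∈ U, p.Prime) ∧ ∑ p ∈ U, p = n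

/-- The conclusion of BND. JOB BND: prove `theorem bnd : S_BAS → S_RICH → S_BND` (about 150 lines).
Proof. Let `N ≥ 7`, `N = 2 M + w` with `w ∈ {7, 8}`, and `M = ∑ l` as in BAS. Let `Y ≥ B` be a constant (to be
chosen). The elements `s > Y` of `l` are good; the others have the sum `≤ K Y`. So
`N = ∑_{s ∈ l, s > Y} 2 s + v` with `7 ≤ v ≤ 8 + 2 K Y`. By RICH `v = ∑ U₀`, and
`|U₀| ≤ 2 √v + 1` or similar (the sum of `k` different positive integers is `≥ k (k + 1) / 2`;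
`Finset.sum_range_id_le_sum` or induction). Then add, one after the other, for each `s ∈ l` with `s > Y`,
two primes `p ≠ q`, `p + q = 2 s`, which are not in the set `V` of the primes used before: at most
`2 |V| + 1 ≤ 2 (|U₀| + 2 K) + 1` of the `rep (2 s)` representations are excluded, and
`rep (2 s) ≥ (2 s) ^ (2/3) ≥ (2 Y) ^ (2/3)` is larger if `Y` is large (`|U₀| ≤ c √Y`). The final set has at most
`|U₀| + 2 K` elements, a constant. -/
def S_BND : Prop := ∃ c₀ : ℕ, ∀ N : ℕ, 7 ≤ N → ∃ U : Finset ℕ, (∀ p ∈ U, p.Prime) ∧ ∑ p ∈ U, p = N ∧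
  U.card ≤ c₀

/-! ## 4. The result (helper275) -/

/-- The set `S` is a partition of `n` into distinct primes. -/
def IsPart (n : ℕ) (S : Finset ℕ) : Prop := (∀ p ∈ S, p.Prime) ∧ ∑ p ∈ S, p = n

def S_MAIN : Prop := ∀ C : ℕ, ∃ n : ℕ, ∃ S T : Finset ℕ, IsPart n S ∧ IsPart n T ∧
  (∀ U, IsPart n U → U.card ≤ S.card) ∧ (∀ U, IsPart n U → U ≠ T → ∏ p ∈ U, p < ∏ p ∈ T, p) ∧
  T.card + C < S.card

end Pool.Agent.Q275.RT
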